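import Pool.Agent.H45.SE.TarT

/-!
# MP_eaeaf5_lc, TP1: copies which respect the promises
-/

set_option linter.unusedVariables false

open Ordinal Order Set
open scoped ZFSet

namespace SE

open SF

theorem pf_TP1 (hBJ : T_BJ) (hBL : T_BL) (hZX : T_ZX) (hWD : T_WD) (hTHb : T_THb) (hTJ : T_TJ) :
    T_TP1 := by
  intro D hD G hG s hs hsL htr ρ' G0 p' hEx hResp hp'
  obtain ⟨hst, hsub, hres⟩ := hEx
  obtain ⟨hρ, hc, hg⟩ := hst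
  have hJ := hBJ D hD.ok
  have hNH : ∀ x ∈ D.H, D.N x := hJ.2.2.1
  have hNρ : D.N ρ' := hNH _ hρ
  have hNs : D.N s := hNH _ hs
  have hJρ := (hJ.2.2.2.2 ρ' hNρ hc).2
  obtain ⟨-, ⟨hsubP, -, -, hjoin, -⟩, -⟩ := hJρ G0 hg
  -- a condition which forces that the promises are respected
  obtain ⟨q0, hq0, hq0f⟩ := (hZX D hD.ok ρ' hNρ hc _
    ((hWD D hD.ok hD.tab ρ' hρ hc).2.1 s hNs hsub)).2.2 G0 hg hResp
  obtain ⟨-, hp1, hle1, hle2⟩ := hjoin p' hp' q0 hq0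
  set p1 : V := jn q0 p' with hp1def
  have hp1P : p1 ∈ D.P ρ' := hsubP hp1
  have hrst : rst s p1 ∈ G := by
    have h1 : rst s p1 ∈ gs G0 s := ((hBL D hD.ok ρ' G0 hNρ hc hg).2 s hNs hsub htr).2.2.2.2.1
      p1 hp1
    rw [hres] at h1
    exact (ZFSet.mem_sep.1 h1).1
  have hforce : ∀ G1, D.Gn ρ' G1 → p1 ∈ G1 → Resp s ρ' G1 := by
    intro G1 hG1 hp
    obtain ⟨-, ⟨-, -, hup, -, -⟩, -⟩ := hJρ G1 hG1
    exact hq0f G1 hG1 (hup p1 hp q0 (hsubP hq0) hle1)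
  have hcp := hTHb D hD s hs hsL htr ρ' hρ hc hsub p1 hp1P hforce
  have hemp : (∅ : V) ∈ D.H := (Tm.empty).1 (· ∈ D.H) hD.ok.zfH (fun _ => D.L)
    (fun _ => hD.ok.lH)
  obtain ⟨π, ρ'', G', hN, -, -, hsρ, hρL, hG', hp1G', -, hEx', hW⟩ :=
    hTJ D hD G hG s hs hsL htr ρ' hρ hc hsub p1 hp1P hrst ∅ hemp hcp
  obtain ⟨-, ⟨-, -, hup', -, -⟩, -⟩ := hJρ G' hG'
  exact ⟨G', ρ'', hEx', hup' p1 hp1G' p' (hsubP hp') hle2, hN.h', hsρ, hρL,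
    fun i hi => (hN.c' i hi).2, hW⟩

end SE
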