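import Pool.Agent.H38.SE.TarB

/-!
# MP_eaeaf5_lc, BBc: definability, third part
-/

set_option linter.unusedVariables false

open Ordinal Order Set
open scoped ZFSet

namespace SE.BBcAux

open SF

variable {f g h k l m : (V → Prop) → (ℕ → V) → V}

/-- the first half of `Cmp` at one coordinate -/
def C1 (q p i : V) : Prop := fst (app p i) ⊆ fst (app q i) ∧
  ∀ n ∈ dm (fst (app q i)), n ∉ dm (fst (app p i)) →
    ∀ l ∈ snd (app p i), app (fst (app q i)) n ≠ app l n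

theorem dfb_C1 (hf : Tm ZFm f) (hg : Tm ZFm g) (hh : Tm ZFm h) :
    Dfb ZFm (fun M v => C1 (f M v) (g M v) (h M v)) := by
  refine Dfb.at3 (P := fun _ x y z => C1 x y z) ?_ hf hg hh
  refine (Dfb.subset (Tm.fst (Tm.app (Tm.var 1) (Tm.var 2)))
    (Tm.fst (Tm.app (Tm.var 0) (Tm.var 2)))).and ?_
  refine Dfb.ball (R := fun _ u => u 0 ∉ dm (fst (app (u 2) (u 3))) →
    ∀ l ∈ snd (app (u 2) (u 3)), app (fst (app (u 1) (u 3))) (u 0) ≠ app l (u 0)) ktr_zfm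
    (Tm.dm (Tm.fst (Tm.app (Tm.var 0) (Tm.var 2)))) ?_
  refine ((Dfb.mem (Tm.var 0) (Tm.dm (Tm.fst (Tm.app (Tm.var 2) (Tm.var 3))))).not).imp ?_
  refine Dfb.ball (R := fun _ w => app (fst (app (w 2) (w 4))) (w 1) ≠ app (w 0) (w 1)) ktr_zfm
    (Tm.snd (Tm.app (Tm.var 2) (Tm.var 3))) ?_
  exact (Dfb.eq (Tm.app (Tm.fst (Tm.app (Tm.var 2) (Tm.var 4))) (Tm.var 1))
    (Tm.app (Tm.var 0) (Tm.var 1))).not

theorem dfb_cmp : Dfb ZFm (fun _ v => Cmp (v 0) (v 1)) := by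
  refine Dfb.ball (R := fun _ u => u 0 ∈ dm (u 2) → C1 (u 1) (u 2) (u 0) ∨ C1 (u 2) (u 1) (u 0))
    ktr_zfm (Tm.dm (Tm.var 0)) ?_
  exact (Dfb.mem (Tm.var 0) (Tm.dm (Tm.var 2))).imp
    ((dfb_C1 (Tm.var 1) (Tm.var 2) (Tm.var 0)).or (dfb_C1 (Tm.var 2) (Tm.var 1) (Tm.var 0)))

theorem tm_jn : Tm ZFm (fun _ v => jn (v 0) (v 1)) :=
  Tm.resS (g := fun _ u => ZFSet.pair (fst (app (u 1) (u 0)) ∪ fst (app (u 2) (u 0)))
      (snd (app (u 1) (u 0)) ∪ snd (app (u 2) (u 0))))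
    (Tm.union (Tm.dm (Tm.var 0)) (Tm.dm (Tm.var 1)))
    (Tm.pair (Tm.union (Tm.fst (Tm.app (Tm.var 1) (Tm.var 0)))
        (Tm.fst (Tm.app (Tm.var 2) (Tm.var 0))))
      (Tm.union (Tm.snd (Tm.app (Tm.var 1) (Tm.var 0)))
        (Tm.snd (Tm.app (Tm.var 2) (Tm.var 0)))))

theorem tm_mv0 : Tm ZFm (fun _ v => mv (v 0) (v 1)) :=
  Tm.image (g := fun _ u => ZFSet.pair (app (u 1) (fst (u 0))) (snd (u 0))) (Tm.var 1)
    (Tm.pair (Tm.app (Tm.var 1) (Tm.fst (Tm.var 0))) (Tm.snd (Tm.var 0)))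

theorem tm_mv (hf : Tm ZFm f) (hg : Tm ZFm g) : Tm ZFm (fun M v => mv (f M v) (g M v)) :=
  Tm.at2 (F := fun _ x y => mv x y) tm_mv0 hf hg

theorem tm_im0 : Tm ZFm (fun _ v => im (v 0) (v 1)) :=
  Tm.image (g := fun _ u => app (u 1) (u 0)) (Tm.var 1) (Tm.app (Tm.var 1) (Tm.var 0))

theorem tm_im (hf : Tm ZFm f) (hg : Tm ZFm g) : Tm ZFm (fun M v => im (f M v) (g M v)) :=
  Tm.at2 (F := fun _ x y => im x y) tm_im0 hf hg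

theorem tm_inv : Tm ZFm (fun _ v => inv (v 0)) :=
  Tm.image (g := fun _ u => ZFSet.pair (snd (u 0)) (fst (u 0))) (Tm.var 0)
    (Tm.pair (Tm.snd (Tm.var 0)) (Tm.fst (Tm.var 0)))

/-- `b` is in the structure if `(q, b) ∈ Y` -/
theorem mem_of_pair {M : V → Prop} (hM : ZFm M) {q b Y : V} (hY : M Y) (h : ZFSet.pair q b ∈ Y) :
    M b := by
  have h1 : M (ZFSet.pair q b) := hM.trans _ hY _ h
  have h2 : M ({q, b} : V) := hM.trans _ h1 _ (by rw [ZFSet.pair]; simp)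
  exact hM.trans _ h2 _ (by simp)

/-- agreement of two names below `p` for all labels, with projection `F` -/
def Agr (F : V → V) (L π ρ p : V) : Prop := ∀ i ∈ ρ, ∀ q ∈ Pos L (lS i), Le q (rst (lS i) p) →
  ∀ b, (ZFSet.pair q b ∈ F i ↔ ZFSet.pair (mv π q) b ∈ F (app π i))

section
variable (hBa : T_BBa)
include hBa

theorem tm_pos (hf : Tm ZFm f) (hg : Tm ZFm g) : Tm ZFm (fun M v => Pos (f M v) (g M v)) :=
  Tm.at2 (F := fun _ x y => Pos x y) hBa.2.2.2.2.2.2.2.2.2.2.2.2.1 hf hg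

theorem tm_rst (hf : Tm ZFm f) (hg : Tm ZFm g) : Tm ZFm (fun M v => rst (f M v) (g M v)) :=
  Tm.at2 (F := fun _ x y => rst x y) hBa.1 hf hg

theorem tm_lS (hf : Tm ZFm f) : Tm ZFm (fun M v => lS (f M v)) :=
  Tm.at1 (F := fun _ x => lS x) hBa.2.2.2.2.1 hf

theorem dfb_le (hf : Tm ZFm f) (hg : Tm ZFm g) : Dfb ZFm (fun M v => Le (f M v) (g M v)) :=
  Dfb.at2 (P := fun _ x y => Le x y) hBa.2.2.2.2.2.2.2.2.2.2.2.1 hf hg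

theorem dfb_agr {F : V → V} (hF : Tm ZFm (fun _ v => F (v 0))) :
    Dfb ZFm (fun _ v => Agr F (v 0) (v 1) (v 2) (v 3)) := by
  have hF' : ∀ {f : (V → Prop) → (ℕ → V) → V}, Tm ZFm f → Tm ZFm (fun M v => F (f M v)) :=
    fun hf => Tm.at1 (F := fun _ x => F x) hF hf
  refine Dfb.ball (R := fun _ u => ∀ q ∈ Pos (u 1) (lS (u 0)), Le q (rst (lS (u 0)) (u 4)) →
    ∀ b, (ZFSet.pair q b ∈ F (u 0) ↔ ZFSet.pair (mv (u 2) q) b ∈ F (app (u 2) (u 0)))) ktr_zfm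
    (Tm.var 2) ?_
  refine Dfb.ball (R := fun _ w => Le (w 0) (rst (lS (w 1)) (w 5)) →
    ∀ b, (ZFSet.pair (w 0) b ∈ F (w 1) ↔
      ZFSet.pair (mv (w 3) (w 0)) b ∈ F (app (w 3) (w 1)))) ktr_zfm
    (tm_pos hBa (Tm.var 1) (tm_lS hBa (Tm.var 0))) ?_
  refine (dfb_le hBa (Tm.var 0) (tm_rst hBa (tm_lS hBa (Tm.var 1)) (Tm.var 5))).imp ?_
  have h1 : Dfb ZFm (fun _ t => (ZFSet.pair (t 1) (t 0) ∈ F (t 2) ↔
      ZFSet.pair (mv (t 4) (t 1)) (t 0) ∈ F (app (t 4) (t 2)))) :=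
    (Dfb.pairMem (Tm.var 1) (Tm.var 0) (hF' (Tm.var 2))).iff
      (Dfb.pairMem (tm_mv (Tm.var 4) (Tm.var 1)) (Tm.var 0) (hF' (Tm.app (Tm.var 4) (Tm.var 2))))
  refine h1.all.congr fun M hM w hw => ?_
  constructor
  · intro hh b
    by_cases hb : M b
    · exact hh b hb
    · constructor
      · intro hc
        exact absurd (mem_of_pair hM ((hF' (Tm.var 1)).1 M hM w hw) hc) hb
      · intro hc
        exact absurd (mem_of_pair hM ((hF' (Tm.app (Tm.var 3) (Tm.var 1))).1 M hM w hw) hc) hb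
  · intro hh b _
    exact hh b

theorem dfb_iso : Dfb ZFm (fun _ v => Iso (v 0) (v 1) (v 2) (v 3) (v 4)) := by
  have h1 : Dfb ZFm (fun _ v => ZFSet.IsFunc (v 2) (v 3) (v 1)) :=
    Dfb.isFunc (Tm.var 2) (Tm.var 3) (Tm.var 1)
  have h2 : Dfb ZFm (fun _ v => ∀ i ∈ v 2, ∀ j ∈ v 2, app (v 1) i = app (v 1) j → i = j) := by
    refine Dfb.ball (R := fun _ u => ∀ j ∈ u 3, app (u 2) (u 0) = app (u 2) j → u 0 = j) ktr_zfm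
      (Tm.var 2) ?_
    refine Dfb.ball (R := fun _ u => app (u 3) (u 1) = app (u 3) (u 0) → u 1 = u 0) ktr_zfm
      (Tm.var 3) ?_
    exact (Dfb.eq (Tm.app (Tm.var 3) (Tm.var 1)) (Tm.app (Tm.var 3) (Tm.var 0))).imp
      (Dfb.eq (Tm.var 1) (Tm.var 0))
  have h3 : Dfb ZFm (fun _ v => ∀ j ∈ v 3, ∃ i ∈ v 2, app (v 1) i = j) := by
    refine Dfb.ball (R := fun _ u => ∃ i ∈ u 3, app (u 2) i = u 0) ktr_zfm (Tm.var 3) ?_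
    refine Dfb.bex (R := fun _ u => app (u 3) (u 0) = u 1) ktr_zfm (Tm.var 3) ?_
    exact Dfb.eq (Tm.app (Tm.var 3) (Tm.var 0)) (Tm.var 1)
  have h4 : Dfb ZFm (fun _ v => ∀ i ∈ v 2, lS (app (v 1) i) = im (v 1) (lS i)) := by
    refine Dfb.ball (R := fun _ u => lS (app (u 2) (u 0)) = im (u 2) (lS (u 0))) ktr_zfm
      (Tm.var 2) ?_
    exact Dfb.eq (tm_lS hBa (Tm.app (Tm.var 2) (Tm.var 0))) (tm_im (Tm.var 2)
      (tm_lS hBa (Tm.var 0)))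
  have h5 : Dfb ZFm (fun _ v => v 4 ∈ Pos (v 0) (v 2)) :=
    Dfb.mem (Tm.var 4) (tm_pos hBa (Tm.var 0) (Tm.var 2))
  have h6 : Dfb ZFm (fun _ v => Agr lY (v 0) (v 1) (v 2) (v 4)) :=
    (dfb_agr hBa hBa.2.2.2.2.2.1).rn (fun i => if i = 3 then 4 else i)
  refine (h1.and (h2.and (h3.and (h4.and (h5.and h6))))).congr fun M hM v hv => ?_
  constructor
  · rintro ⟨a1, a2, a3, a4, a5, a6⟩
    exact ⟨a1, a2, a3, a4, a5, a6⟩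
  · rintro ⟨a1, a2, a3, a4, a5, a6⟩
    exact ⟨a1, a2, a3, a4, a5, a6⟩

theorem dfb_agZ : Dfb ZFm (fun _ v => AgZ (v 0) (v 1) (v 2) (v 3)) :=
  dfb_agr hBa hBa.2.2.2.2.2.2.1

theorem tm_gp : Tm ZFm (fun _ v => gp (v 0) (v 1) (v 2) (v 3) (v 4)) := by
  refine Tm.sep (R := fun _ u => ∃ q ∈ u 5, Le q (u 3) ∧ Le (mv (u 2) q) (u 0)) ?_
    (tm_pos hBa (Tm.var 0) (Tm.var 3))
  refine Dfb.bex (R := fun _ w => Le (w 0) (w 4) ∧ Le (mv (w 3) (w 0)) (w 1)) ktr_zfm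
    (Tm.var 5) ?_
  exact (dfb_le hBa (Tm.var 0) (Tm.var 4)).and
    (dfb_le hBa (tm_mv (Tm.var 3) (Tm.var 0)) (Tm.var 1))

theorem tm_knm (hSq : Tm ZFm (fun _ _ => sq)) (e : ℕ) (hk : Tm ZFm (fun _ _ => kc e)) :
    Tm ZFm (fun _ v => knm (v 0) (v 1) e) :=
  Tm.sep (R := fun _ u => snd (u 0) ⊆ kc e) (Dfb.subset (Tm.snd (Tm.var 0)) hk)
    (Tm.prod (tm_pos hBa (Tm.var 0) (Tm.var 1)) hSq)

theorem tm_trn (hSq : Tm ZFm (fun _ _ => sq)) (hk : Tm ZFm (fun _ _ => kc 0)) :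
    Tm ZFm (fun _ v => trn (v 0) (v 1) (v 2) (v 3) (v 4) (v 5)) := by
  -- after the separation variable: `u 0 = z`, `u 1 = L`, `u 2 = π`, `u 3 = p`, `u 4 = s`,
  -- `u 5 = s'`, `u 6 = Y`
  refine Tm.sep (R := fun _ u => ∀ r ∈ Pos (u 1) (u 5), Le r (fst (u 0)) →
    ∃ r' ∈ Pos (u 1) (u 5), Le r' r ∧
      ((∃ q ∈ Pos (u 1) (u 4), Le q (u 3) ∧ r' = mv (u 2) q ∧ ZFSet.pair q (snd (u 0)) ∈ u 6) ∨
        ((∀ q' ∈ Pos (u 1) (u 5), ¬ (Le q' r' ∧ Le q' (mv (u 2) (u 3)))) ∧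
          snd (u 0) ⊆ kc 0))) ?_
    (Tm.prod (tm_pos hBa (Tm.var 0) (Tm.var 4)) hSq)
  refine Dfb.ball (R := fun _ u => Le (u 0) (fst (u 1)) →
    ∃ r' ∈ Pos (u 2) (u 6), Le r' (u 0) ∧
      ((∃ q ∈ Pos (u 2) (u 5), Le q (u 4) ∧ r' = mv (u 3) q ∧ ZFSet.pair q (snd (u 1)) ∈ u 7) ∨
        ((∀ q' ∈ Pos (u 2) (u 6), ¬ (Le q' r' ∧ Le q' (mv (u 3) (u 4)))) ∧
          snd (u 1) ⊆ kc 0))) ktr_zfm (tm_pos hBa (Tm.var 1) (Tm.var 5)) ?_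
  refine (dfb_le hBa (Tm.var 0) (Tm.fst (Tm.var 1))).imp ?_
  refine Dfb.bex (R := fun _ u => Le (u 0) (u 1) ∧
      ((∃ q ∈ Pos (u 3) (u 6), Le q (u 5) ∧ u 0 = mv (u 4) q ∧ ZFSet.pair q (snd (u 2)) ∈ u 8) ∨
        ((∀ q' ∈ Pos (u 3) (u 7), ¬ (Le q' (u 0) ∧ Le q' (mv (u 4) (u 5)))) ∧
          snd (u 2) ⊆ kc 0))) ktr_zfm (tm_pos hBa (Tm.var 2) (Tm.var 6)) ?_
  refine (dfb_le hBa (Tm.var 0) (Tm.var 1)).and (Dfb.or ?_ (Dfb.and ?_ ?_))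
  · refine Dfb.bex (R := fun _ u => Le (u 0) (u 6) ∧ u 1 = mv (u 5) (u 0) ∧
      ZFSet.pair (u 0) (snd (u 3)) ∈ u 9) ktr_zfm (tm_pos hBa (Tm.var 3) (Tm.var 6)) ?_
    exact (dfb_le hBa (Tm.var 0) (Tm.var 6)).and
      ((Dfb.eq (Tm.var 1) (tm_mv (Tm.var 5) (Tm.var 0))).and
        (Dfb.pairMem (Tm.var 0) (Tm.snd (Tm.var 3)) (Tm.var 9)))
  · refine Dfb.ball (R := fun _ u => ¬ (Le (u 0) (u 1) ∧ Le (u 0) (mv (u 5) (u 6)))) ktr_zfm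
      (tm_pos hBa (Tm.var 3) (Tm.var 7)) ?_
    exact ((dfb_le hBa (Tm.var 0) (Tm.var 1)).and
      (dfb_le hBa (Tm.var 0) (tm_mv (Tm.var 5) (Tm.var 6)))).not
  · exact Dfb.subset (Tm.snd (Tm.var 2)) hk

end

end SE.BBcAux

namespace SE

open SF BBcAux

theorem pf_BBc (hAF : T_AF) (hAI : T_AI) (hBa : T_BBa) : T_BBc := by
  have hSq : Tm ZFm (fun _ _ => sq) := hAF.2.2.1
  have hk : ∀ e : ℕ, Tm ZFm (fun _ _ => kc e) := hAI.2.2.2.1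
  exact ⟨dfb_cmp, tm_jn, tm_mv0, tm_im0, dfb_iso hBa, dfb_agZ hBa, tm_gp hBa,
    fun e => tm_knm hBa hSq e (hk e), tm_trn hBa hSq (hk 0), tm_inv⟩

end SE
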